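import Mathlib

/-!
MP_a46c6f_co, target (C): symmetric relations with midpoints (helper44, note 7046; helper68,
note 7029).  `AB`: a set with midpoints and no induced P4 has an isolated or a full vertex, and
every non-isolated vertex has a looped neighbour whose neighbourhood is closed under adjacency.
-/

namespace Pool.Agent.H19.P4

variable {X : Type*}

/-- closed pairs of `D` have midpoints in `D` -/
def Mid (r : X → X → Prop) (D : Set X) : Prop :=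
  ∀ u ∈ D, ∀ v ∈ D, (r u u ↔ r v v) → ¬ (r u v ↔ r u u) →
    ∃ g ∈ D, ¬ (r g g ↔ r u u) ∧ (r g u ↔ r g g) ∧ (r g v ↔ r g g) ∧
      ∀ y, (r u y ↔ r v y) → (r g y ↔ r u y)

/-- `D` contains an induced path with four vertices -/
def HasP (r : X → X → Prop) (D : Set X) : Prop :=
  ∃ a ∈ D, ∃ b ∈ D, ∃ c ∈ D, ∃ d ∈ D, r a b ∧ r b c ∧ r c d ∧ ¬ r a c ∧ ¬ r a d ∧ ¬ r b d

/-- the part of `D` whose vertices see `w` (`p` true) or do not see `w` (`p` false) -/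
def cut (r : X → X → Prop) (D : Set X) (w : X) (p : Prop) : Set X :=
  {y | y ∈ D ∧ (r y w ↔ p)}

/-- nonempty sets have an isolated or a full vertex -/
def PA (r : X → X → Prop) (D : Set X) : Prop :=
  D.Nonempty → ∃ x ∈ D, (∀ y ∈ D, ¬ r x y) ∨ (∀ y ∈ D, r x y)

/-- non-isolated vertices have a dominating looped neighbour with closed neighbourhood -/
def PB (r : X → X → Prop) (D : Set X) : Prop :=
  ∀ x ∈ D, ∀ y ∈ D, r x y → ∃ f ∈ D, r f f ∧ r f x ∧ ∀ u ∈ D, r f u → ∀ v ∈ D, r u v → r f v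

theorem cut_sub (r : X → X → Prop) (D : Set X) (w : X) (p : Prop) : cut r D w p ⊆ D :=
  fun _ h => h.1

theorem mid_cut {r : X → X → Prop} {D : Set X} (h : Mid r D) (w : X) (p : Prop) :
    Mid r (cut r D w p) := by
  intro u hu v hv huv hne
  obtain ⟨g, hg, h1, h2, h3, h4⟩ := h u hu.1 v hv.1 huv hne
  refine ⟨g, ⟨hg, ?_⟩, h1, h2, h3, h4⟩
  have h5 : r u w ↔ r v w := hu.2.trans hv.2.symm
  exact (h4 w h5).trans hu.2

theorem hasP_mono {r : X → X → Prop} {D E : Set X} (h : D ⊆ E) (hD : HasP r D) : HasP r E := by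
  obtain ⟨a, ha, b, hb, c, hc, d, hd, h'⟩ := hD
  exact ⟨a, h ha, b, h hb, c, h hc, d, h hd, h'⟩

/-- the situation of an induction step: a family of sets closed under cuts -/
structure Sys (r : X → X → Prop) (P : Set X → Prop) (D : Set X) : Prop where
  symm : ∀ x y, r x y → r y x
  cl : ∀ E, P E → ∀ w p, P (cut r E w p)
  self : P D
  mid : ∀ E, P E → Mid r E
  ih : ∀ E, P E → E ⊂ D → PA r E ∧ PB r E

variable {r : X → X → Prop} {P : Set X → Prop} {D : Set X}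

theorem Sys.plus (S : Sys r P D) {w y : X} (hw : w ∈ D) (hww : ¬ r w w) (hy : y ∈ D)
    (hwy : r w y) : ∃ w' ∈ D, r w' w' ∧ r w' w ∧ ∀ z ∈ D, r w z → r w' z := by
  have hsub : cut r D w True ⊂ D := by
    refine ⟨cut_sub _ _ _ _, fun h => ?_⟩
    exact hww ((h hw).2.2 trivial)
  obtain ⟨x, hx, hx'⟩ := (S.ih _ (S.cl _ S.self w True) hsub).1
    ⟨y, hy, iff_of_true (S.symm _ _ hwy) trivial⟩
  have hxw : r x w := hx.2.2 trivial
  rcases hx' with hiso | hfull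
  · exfalso
    have hxx : ¬ r x x := hiso x hx
    obtain ⟨g, hg, h1, h2, h3, -⟩ := S.mid _ S.self w hw x hx.1 (iff_of_false hww hxx)
      (fun h => hww (h.1 (S.symm _ _ hxw)))
    have hgg : r g g := by
      by_contra hgg
      exact h1 (iff_of_false hgg hww)
    have hgw : r g w := h2.2 hgg
    have hgx : r g x := h3.2 hgg
    exact hiso g ⟨hg, iff_of_true hgw trivial⟩ (S.symm _ _ hgx)
  · exact ⟨x, hx.1, hfull x hx, hxw, fun z hz hwz =>
      hfull z ⟨hz, iff_of_true (S.symm _ _ hwz) trivial⟩⟩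

theorem Sys.iso2 (S : Sys r P D) {b c z : X} (hb : b ∈ D) (hc : c ∈ D)
    (hcc : r c c) (hbc : r b c) (hz : z ∈ D) (hbz : r b z) (hcz : ¬ r c z) :
    ∃ a ∈ D, r b a ∧ ¬ r c a ∧ ∀ z ∈ D, r b z → ¬ r c z → ¬ r a z := by
  have hsub : cut r (cut r D b True) c False ⊂ D := by
    refine ⟨fun y hy => hy.1.1, fun h => ?_⟩
    exact (h hc).2.1 hcc
  obtain ⟨a, ha, ha'⟩ := (S.ih _ (S.cl _ (S.cl _ S.self b True) c False) hsub).1
    ⟨z, ⟨hz, iff_of_true (S.symm _ _ hbz) trivial⟩, iff_of_false (fun h => hcz (S.symm _ _ h)) id⟩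
  have haD : a ∈ D := ha.1.1
  have hab : r a b := ha.1.2.2 trivial
  have hac : ¬ r a c := ha.2.1
  have hmem : ∀ y ∈ D, r b y → ¬ r c y → y ∈ cut r (cut r D b True) c False := fun y hy h1 h2 =>
    ⟨⟨hy, iff_of_true (S.symm _ _ h1) trivial⟩, iff_of_false (fun h => h2 (S.symm _ _ h)) id⟩
  rcases ha' with hiso | hfull
  · exact ⟨a, haD, S.symm _ _ hab, fun h => hac (S.symm _ _ h),
      fun y hy h1 h2 => hiso y (hmem y hy h1 h2)⟩
  · exfalso
    have haa : r a a := hfull a ha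
    obtain ⟨g, hg, h1, h2, h3, h4⟩ := S.mid _ S.self a haD c hc (iff_of_true haa hcc)
      (fun h => hac (h.2 haa))
    have hgg : ¬ r g g := fun h => h1 (iff_of_true h haa)
    have hga : ¬ r g a := fun h => hgg (h2.1 h)
    have hgc : ¬ r g c := fun h => hgg (h3.1 h)
    have hgb : r g b := (h4 b (iff_of_true hab (S.symm _ _ hbc))).2 hab
    have hgm : g ∈ cut r (cut r D b True) c False := ⟨⟨hg, iff_of_true hgb trivial⟩,
      iff_of_false hgc id⟩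
    exact hga (S.symm _ _ (hfull g hgm))

/-- steps (3) and (4) of the proof -/
theorem Sys.core (S : Sys r P D) {b x y y' : X} (hb : b ∈ D) (hbb : r b b) (hbx : r b x)
    (hx : x ∈ D)
    (hmax : ∀ b' ∈ D, r b' x → (∀ z ∈ D, r b z → r b' z) → ∀ z ∈ D, r b' z → r b z)
    (hy : y ∈ D) (hy' : y' ∈ D) (hby : r b y) (hby' : ¬ r b y') (hyy' : r y y') :
    ∃ a ∈ D, ∃ c ∈ D, ∃ d ∈ D, r a b ∧ r b c ∧ r c d ∧ ¬ r a c ∧ ¬ r a d ∧ ¬ r b d ∧
      ¬ r a a ∧ r c c ∧ ¬ r d d ∧ (∀ z ∈ D, r d z → r b z) ∧ (∀ z ∈ D, r d z → r c z) ∧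
      (∀ z ∈ D, r b z → ¬ r c z → ¬ r a z) := by
  -- a looped neighbour of b with a neighbour outside N(b)
  obtain ⟨c0, hc0, hc00, hbc0, hc0y⟩ : ∃ c0 ∈ D, r c0 c0 ∧ r b c0 ∧ r c0 y' := by
    by_cases hyy : r y y
    · exact ⟨y, hy, hyy, hby, hyy'⟩
    · obtain ⟨w, hw, h1, h2, h3⟩ := S.plus hy hyy hy' hyy'
      exact ⟨w, hw, h1, S.symm _ _ (h3 b hb (S.symm _ _ hby)), h3 y' hy' hyy'⟩
  obtain ⟨d', hd', h1, h2, h3⟩ := S.iso2 hc0 hb hbb (S.symm _ _ hbc0) hy' hc0y hby'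
  have hd'd' : ¬ r d' d' := h3 d' hd' h1 h2
  obtain ⟨q, hq, hqq, hqd', hq'⟩ := S.plus hd' hd'd' hc0 (S.symm _ _ h1)
  have hqc0 : r q c0 := hq' c0 hc0 (S.symm _ _ h1)
  have hbq : r b q := by
    by_contra hbq
    exact h3 q hq (S.symm _ _ hqc0) hbq (S.symm _ _ hqd')
  obtain ⟨d, hd, hdd, hbd, ⟨z1, hz1, hdz1⟩, hdb⟩ : ∃ d ∈ D, ¬ r d d ∧ ¬ r b d ∧
      (∃ z ∈ D, r d z) ∧ (∀ z ∈ D, r d z → r b z) := by
    by_cases hall : ∀ z ∈ D, r d' z → r b z
    · exact ⟨d', hd', hd'd', h2, ⟨c0, hc0, S.symm _ _ h1⟩, hall⟩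
    · push Not at hall
      obtain ⟨z0, hz0, hdz0, hbz0⟩ := hall
      have hG : ∀ y ∈ D, ¬ r b y → y ∈ cut r D b False := fun y hy h =>
        ⟨hy, iff_of_false (fun h' => h (S.symm _ _ h')) id⟩
      have hsub : cut r D b False ⊂ D := by
        refine ⟨cut_sub _ _ _ _, fun h => ?_⟩
        exact (h hb).2.1 hbb
      obtain ⟨f, hf, hff, hfd', hfc⟩ := (S.ih _ (S.cl _ S.self b False) hsub).2 d' (hG d' hd' h2)
        z0 (hG z0 hz0 hbz0) hdz0
      have hfb : ¬ r f b := hf.2.1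
      obtain ⟨g, hg, g1, g2, g3, g4⟩ := S.mid _ S.self f hf.1 b hb (iff_of_true hff hbb)
        (fun h => hfb (h.2 hff))
      have hgg : ¬ r g g := fun h => g1 (iff_of_true h hff)
      have hgf : ¬ r g f := fun h => hgg (g2.1 h)
      have hgb : ¬ r g b := fun h => hgg (g3.1 h)
      have hbg : ¬ r b g := fun h => hgb (S.symm _ _ h)
      refine ⟨g, hg, hgg, hbg, ⟨q, hq, ?_⟩, ?_⟩
      · have hqf : r q f := hq' f hf.1 (S.symm _ _ hfd')
        exact (g4 q (iff_of_true (S.symm _ _ hqf) hbq)).2 (S.symm _ _ hqf)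
      · intro z hz hgz
        by_contra hbz
        by_cases hfz : r f z
        · exact hgf (S.symm _ _ (hfc z (hG z hz hbz) hfz g (hG g hg hbg) (S.symm _ _ hgz)))
        · exact hfz ((g4 z (iff_of_false hfz hbz)).1 hgz)
  obtain ⟨c, hc, hcc, hcd, hdc⟩ := S.plus hd hdd hz1 hdz1
  have hbc : r b c := hdb c hc (S.symm _ _ hcd)
  obtain ⟨z2, hz2, hbz2, hcz2⟩ : ∃ z ∈ D, r b z ∧ ¬ r c z := by
    by_contra hno
    push Not at hno
    exact hbd (hmax c hc (hno x hx hbx) hno d hd hcd)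
  obtain ⟨a, ha, hba, hca, haz⟩ := S.iso2 hb hc hcc hbc hz2 hbz2 hcz2
  refine ⟨a, ha, c, hc, d, hd, S.symm _ _ hba, hbc, hcd, fun h => hca (S.symm _ _ h), ?_, hbd,
    haz a ha hba hca, hcc, hdd, hdb, hdc, haz⟩
  intro had
  exact hca (hdc a ha (S.symm _ _ had))

/-- a maximal neighbourhood through `x` -/
theorem exists_maxb [Finite X] (r : X → X → Prop) (D : Set X) {x y : X} (hy : y ∈ D)
    (hyx : r y x) : ∃ b ∈ D, r b x ∧
      ∀ b' ∈ D, r b' x → (∀ z ∈ D, r b z → r b' z) → ∀ z ∈ D, r b' z → r b z := by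
  obtain ⟨b, ⟨hb, hbx⟩, hmax⟩ := Set.exists_max_image {b | b ∈ D ∧ r b x}
    (fun b => {z | z ∈ D ∧ r b z}.ncard) (Set.toFinite _) ⟨y, hy, hyx⟩
  refine ⟨b, hb, hbx, fun b' hb' hb'x hsub z hz hb'z => ?_⟩
  have h1 := hmax b' ⟨hb', hb'x⟩
  have h2 : {z | z ∈ D ∧ r b z} ⊆ {z | z ∈ D ∧ r b' z} := fun t ht => ⟨ht.1, hsub t ht.1 ht.2⟩
  have h3 := Set.eq_of_subset_of_ncard_le h2 h1 (Set.toFinite _)
  have h4 : z ∈ {z | z ∈ D ∧ r b z} := by
    rw [h3]; exact ⟨hz, hb'z⟩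
  exact h4.2

theorem Sys.loop (S : Sys r P D) {b x : X} (hb : b ∈ D) (hbx : r b x) (hx : x ∈ D)
    (hmax : ∀ b' ∈ D, r b' x → (∀ z ∈ D, r b z → r b' z) → ∀ z ∈ D, r b' z → r b z) :
    r b b := by
  by_contra hbb
  obtain ⟨w, hw, h1, h2, h3⟩ := S.plus hb hbb hx hbx
  exact hbb (hmax w hw (h3 x hx hbx) h3 b hb h2)

/-- CLAIM A of note 7046 -/
theorem AB [Finite X] (r : X → X → Prop) (hs : ∀ x y, r x y → r y x) (D : Set X)
    (hm : Mid r D) (hp : ¬ HasP r D) : PA r D ∧ PB r D := by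
  induction D using WellFoundedLT.induction with
  | ind D ih =>
    have S : Sys r (fun E => Mid r E ∧ ¬ HasP r E) D :=
      ⟨hs, fun E hE w p => ⟨mid_cut hE.1 w p, fun h => hE.2 (hasP_mono (cut_sub _ _ _ _) h)⟩,
        ⟨hm, hp⟩, fun E hE => hE.1, fun E hE hED => ih E hED hE.1 hE.2⟩
    have hB : PB r D := by
      intro x hx y hy hxy
      obtain ⟨b, hb, hbx, hmax⟩ := exists_maxb r D hy (hs _ _ hxy)
      have hbb := S.loop hb hbx hx hmax
      refine ⟨b, hb, hbb, hbx, fun u hu hbu v hv huv => ?_⟩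
      by_contra hbv
      obtain ⟨a, ha, c, hc, d, hd, h1, h2, h3, h4, h5, h6, -⟩ :=
        S.core hb hbb hbx hx hmax hu hv hbu hbv huv
      exact hp ⟨a, ha, b, hb, c, hc, d, hd, h1, h2, h3, h4, h5, h6⟩
    refine ⟨?_, hB⟩
    rintro ⟨x, hx⟩
    by_cases hiso : ∀ y ∈ D, ¬ r x y
    · exact ⟨x, hx, Or.inl hiso⟩
    push Not at hiso
    obtain ⟨y, hy, hxy⟩ := hiso
    obtain ⟨f, hf, hff, hfx, hfc⟩ := hB x hx y hy hxy
    by_cases hfull : ∀ z ∈ D, r f z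
    · exact ⟨f, hf, Or.inr hfull⟩
    push Not at hfull
    obtain ⟨z, hz, hfz⟩ := hfull
    have hsub : cut r D f False ⊂ D :=
      ⟨cut_sub _ _ _ _, fun h => (h hf).2.1 hff⟩
    have hG : ∀ y ∈ D, ¬ r f y → y ∈ cut r D f False := fun y hy h =>
      ⟨hy, iff_of_false (fun h' => h (hs _ _ h')) id⟩
    obtain ⟨t, ht, ht'⟩ := (S.ih _ (S.cl _ S.self f False) hsub).1 ⟨z, hG z hz hfz⟩
    have hft : ¬ r f t := fun h => ht.2.1 (hs _ _ h)
    rcases ht' with h | h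
    · refine ⟨t, ht.1, Or.inl fun y hy hty => ?_⟩
      by_cases hfy : r f y
      · exact hft (hfc y hy hfy t ht.1 (hs _ _ hty))
      · exact h y (hG y hy hfy) hty
    · exfalso
      have htt : r t t := h t ht
      obtain ⟨g, hg, g1, g2, g3, -⟩ := hm t ht.1 f hf (iff_of_true htt hff)
        (fun h' => ht.2.1 (h'.2 htt))
      have hgg : ¬ r g g := fun h' => g1 (iff_of_true h' htt)
      have hgf : ¬ r g f := fun h' => hgg (g3.1 h')
      exact hgg (g2.1 (hs _ _ (h g ⟨hg, iff_of_false hgf id⟩)))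

end Pool.Agent.H19.P4
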