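import Pool.Agent.H19.P4.Cog

/-!
MP_a46c6f_co, target (C): the minimal cylinder lemma (helper44, note 7046): a symmetric matrix
with midpoints and an induced P4 has an induced P4 with loops 0,1,1,0 without a splitting vertex.
-/

namespace Pool.Agent.H19.P4

variable {X : Type*} {r : X → X → Prop} {P : Set X → Prop} {D : Set X}

/-- `g` sees exactly `{a,b}`, `{c,d}`, `{a,c}` or `{b,d}` -/
def Bad (r : X → X → Prop) (a b c d g : X) : Prop :=
  (r g a ∧ r g b ∧ ¬ r g c ∧ ¬ r g d) ∨ (¬ r g a ∧ ¬ r g b ∧ r g c ∧ r g d) ∨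
    (r g a ∧ ¬ r g b ∧ r g c ∧ ¬ r g d) ∨ (¬ r g a ∧ r g b ∧ ¬ r g c ∧ r g d)

theorem core_good [Finite X] (S : Sys r P D) (hmin : ∀ E, P E → E ⊂ D → ¬ HasP r E)
    (hp : HasP r D) (hnf : ∀ x ∈ D, ∃ y ∈ D, ¬ r x y) :
    ∃ a ∈ D, ∃ b ∈ D, ∃ c ∈ D, ∃ d ∈ D, r a b ∧ r b c ∧ r c d ∧ ¬ r a c ∧ ¬ r a d ∧ ¬ r b d ∧
      ¬ r a a ∧ r b b ∧ r c c ∧ ¬ r d d ∧ ∀ g ∈ D, ¬ Bad r a b c d g := by
  obtain ⟨p, hp0, q, hq0, s, hs0, t, ht0, hpq, hqs, hst, hps, hpt, hqt⟩ := hp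
  obtain ⟨b, hb, hbp, hmax⟩ := exists_maxb r D hq0 (S.symm _ _ hpq)
  have hbb := S.loop hb hbp hp0 hmax
  obtain ⟨z0, hz0, hbz0⟩ := hnf b hb
  have hsub : cut r D b True ⊂ D :=
    ⟨cut_sub _ _ _ _, fun h => hbz0 (S.symm _ _ ((h hz0).2.2 trivial))⟩
  obtain ⟨y, hy, y', hy', hby, hby', hyy'⟩ : ∃ y ∈ D, ∃ y' ∈ D, r b y ∧ ¬ r b y' ∧ r y y' := by
    by_cases h1 : r b q
    · by_cases h2 : r b s
      · by_cases h3 : r b t
        · exfalso
          have hm : ∀ y ∈ D, r b y → y ∈ cut r D b True := fun y hy h =>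
            ⟨hy, iff_of_true (S.symm _ _ h) trivial⟩
          exact hmin _ (S.cl _ S.self b True) hsub ⟨p, hm p hp0 hbp, q, hm q hq0 h1, s,
            hm s hs0 h2, t, hm t ht0 h3, hpq, hqs, hst, hps, hpt, hqt⟩
        · exact ⟨s, hs0, t, ht0, h2, h3, hst⟩
      · exact ⟨q, hq0, s, hs0, h1, h2, hqs⟩
    · exact ⟨p, hp0, q, hq0, hbp, h1, hpq⟩
  obtain ⟨a, ha, c, hc, d, hd, hab, hbc, hcd, hac, had, hbd, haa, hcc, hdd, hdb, hdc, haz⟩ :=
    S.core hb hbb hbp hp0 hmax hy hy' hby hby' hyy'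
  refine ⟨a, ha, b, hb, c, hc, d, hd, hab, hbc, hcd, hac, had, hbd, haa, hbb, hcc, hdd, ?_⟩
  intro g hg hbad
  rcases hbad with ⟨h1, h2, h3, h4⟩ | ⟨h1, h2, h3, h4⟩ | ⟨h1, h2, h3, h4⟩ | ⟨h1, h2, h3, h4⟩
  · exact haz g hg (S.symm _ _ h2) (fun h => h3 (S.symm _ _ h)) (S.symm _ _ h1)
  · exact h2 (S.symm _ _ (hdb g hg (S.symm _ _ h4)))
  · -- the case {a, c}
    have hdc' : ∀ {z}, ¬ r z d → ∀ (_ : z ∈ D), z ∈ cut r D d False := fun {z} hz hzD =>
      ⟨hzD, iff_of_false hz id⟩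
    have hE : cut r D d False ⊂ D :=
      ⟨cut_sub _ _ _ _, fun h => (h hc).2.1 hcd⟩
    obtain ⟨f, hf, hff, hfa, hfc⟩ := (S.ih _ (S.cl _ S.self d False) hE).2 a (hdc' had ha) b
      (hdc' hbd hb) hab
    have hfd : ¬ r f d := hf.2.1
    have hfb : r f b := hfc a (hdc' had ha) hfa b (hdc' hbd hb) hab
    have hfg : r f g := hfc a (hdc' had ha) hfa g (hdc' h4 hg) (S.symm _ _ h1)
    have hfc' : r f c := by
      by_contra hn
      exact haz f hf.1 (S.symm _ _ hfb) (fun h => hn (S.symm _ _ h)) (S.symm _ _ hfa)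
    have hout : ∀ z ∈ D, r b z → ¬ r d z → r f z := fun z hz hbz hdz =>
      hfc b (hdc' hbd hb) hfb z (hdc' (fun h => hdz (S.symm _ _ h)) hz) hbz
    obtain ⟨v, hv, hdv, hfv⟩ : ∃ v ∈ D, r d v ∧ ¬ r f v := by
      by_contra hno
      push Not at hno
      have hall : ∀ z ∈ D, r b z → r f z := fun z hz hbz => by
        by_cases hdz : r d z
        · exact hno z hz hdz
        · exact hout z hz hbz hdz
      exact h2 (S.symm _ _ (hmax f hf.1 (hall p hp0 hbp) hall g hg hfg))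
    have hbv := hdb v hv hdv
    have hcv := hdc v hv hdv
    have hEc : cut r D c True ⊂ D :=
      ⟨cut_sub _ _ _ _, fun h => hac ((h ha).2.2 trivial)⟩
    exact hmin _ (S.cl _ S.self c True) hEc ⟨f, ⟨hf.1, iff_of_true hfc' trivial⟩,
      b, ⟨hb, iff_of_true hbc trivial⟩, v, ⟨hv, iff_of_true (S.symm _ _ hcv) trivial⟩,
      d, ⟨hd, iff_of_true (S.symm _ _ hcd) trivial⟩, hfb, hbv, S.symm _ _ hdv, hfv, hfd, hbd⟩
  · exact h3 (S.symm _ _ (hdc g hg (S.symm _ _ h4)))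

/-- cylinders -/
inductive Cyl (r : X → X → Prop) : Set X → Prop
  | univ : Cyl r Set.univ
  | cut (C : Set X) (w : X) (p : Prop) (h : Cyl r C) : Cyl r (Pool.Agent.H19.P4.cut r C w p)

theorem Cyl.mid (hm : Mid r Set.univ) {C : Set X} (h : Cyl r C) : Mid r C := by
  induction h with
  | univ => exact hm
  | cut C w p _ ih => exact mid_cut ih w p

/-- vertices which agree with `a, b, c, d` where these agree lie in every cylinder -/
theorem Cyl.mem {C : Set X} (h : Cyl r C) {a b c d w : X} (ha : a ∈ C) (hb : b ∈ C) (hc : c ∈ C)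
    (hd : d ∈ C)
    (hw : ∀ y, (r a y ↔ r b y) → (r b y ↔ r c y) → (r c y ↔ r d y) → (r w y ↔ r a y)) :
    w ∈ C := by
  induction h with
  | univ => trivial
  | cut C w0 p _ ih =>
    refine ⟨ih ha.1 hb.1 hc.1 hd.1, ?_⟩
    exact (hw w0 (ha.2.trans hb.2.symm) (hb.2.trans hc.2.symm) (hc.2.trans hd.2.symm)).trans ha.2

theorem mid_compl (hm : Mid r D) : Mid (fun x y => ¬ r x y) D := by
  intro u hu v hv huv hne
  obtain ⟨g, hg, h1, h2, h3, h4⟩ := hm u hu v hv (not_iff_not.1 huv)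
    (fun h => hne (not_congr h))
  exact ⟨g, hg, fun h => h1 (not_iff_not.1 h), not_congr h2, not_congr h3,
    fun y hy => not_congr (h4 y (not_iff_not.1 hy))⟩

theorem hasP_compl (hs : ∀ x y, r x y → r y x) (h : HasP (fun x y => ¬ r x y) D) : HasP r D := by
  obtain ⟨a, ha, b, hb, c, hc, d, hd, h1, h2, h3, h4, h5, h6⟩ := h
  rw [not_not] at h4 h5 h6
  exact ⟨b, hb, d, hd, a, ha, c, hc, h6, hs _ _ h5, h4, fun h => h1 (hs _ _ h), h2,
    fun h => h3 (hs _ _ h)⟩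

theorem hasP_compl' (hs : ∀ x y, r x y → r y x) (h : HasP r D) : HasP (fun x y => ¬ r x y) D := by
  obtain ⟨a, ha, b, hb, c, hc, d, hd, h1, h2, h3, h4, h5, h6⟩ := h
  exact ⟨b, hb, d, hd, a, ha, c, hc, h6, fun h => h5 (hs _ _ h), h4, not_not.2 (hs _ _ h1),
    not_not.2 h2, not_not.2 (hs _ _ h3)⟩

theorem cut_compl (C : Set X) (w : X) (p : Prop) :
    cut (fun x y => ¬ r x y) C w p = cut r C w (¬ p) := by
  ext y
  constructor
  · rintro ⟨h1, h2⟩
    refine ⟨h1, ?_⟩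
    by_cases hp : p
    · exact iff_of_false (h2.2 hp) (not_not.2 hp)
    · exact iff_of_true (by_contra fun h => hp (h2.1 h)) hp
  · rintro ⟨h1, h2⟩
    refine ⟨h1, ?_⟩
    by_cases hp : p
    · exact iff_of_true (fun h => (h2.1 h) hp) hp
    · exact iff_of_false (not_not.2 (h2.2 hp)) hp

/-- P3' in relational form -/
theorem exists_good [Finite X] (r : X → X → Prop) (hs : ∀ x y, r x y → r y x)
    (hm : Mid r Set.univ) (hp : HasP r Set.univ) :
    ∃ a b c d, r a b ∧ r b c ∧ r c d ∧ ¬ r a c ∧ ¬ r a d ∧ ¬ r b d ∧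
      ¬ r a a ∧ r b b ∧ r c c ∧ ¬ r d d ∧
      ∀ w, (∀ y, (r a y ↔ r b y) → (r b y ↔ r c y) → (r c y ↔ r d y) → (r w y ↔ r a y)) →
        ¬ Bad r a b c d w := by
  have main : ∀ C : Set X, Cyl r C → HasP r C →
      ∃ a b c d, r a b ∧ r b c ∧ r c d ∧ ¬ r a c ∧ ¬ r a d ∧ ¬ r b d ∧
      ¬ r a a ∧ r b b ∧ r c c ∧ ¬ r d d ∧
      ∀ w, (∀ y, (r a y ↔ r b y) → (r b y ↔ r c y) → (r c y ↔ r d y) → (r w y ↔ r a y)) →
        ¬ Bad r a b c d w := by
    intro C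
    induction C using WellFoundedLT.induction with
    | ind C ih =>
      intro hC hP
      by_cases hmin : ∀ E, Cyl r E → E ⊂ C → ¬ HasP r E
      · by_cases hnf : ∀ x ∈ C, ∃ y ∈ C, ¬ r x y
        · have S : Sys r (Cyl r) C := ⟨hs, fun E hE w p => Cyl.cut E w p hE, hC,
            fun E hE => hE.mid hm, fun E hE hEC => AB r hs E (hE.mid hm) (hmin E hE hEC)⟩
          obtain ⟨a, ha, b, hb, c, hc, d, hd, h1, h2, h3, h4, h5, h6, h7, h8, h9, h10, h11⟩ :=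
            core_good S hmin hP hnf
          exact ⟨a, b, c, d, h1, h2, h3, h4, h5, h6, h7, h8, h9, h10,
            fun w hw => h11 w (hC.mem ha hb hc hd hw)⟩
        · push Not at hnf
          obtain ⟨x0, hx0, hfull⟩ := hnf
          have hs' : ∀ x y, ¬ r x y → ¬ r y x := fun x y h h' => h (hs _ _ h')
          have hmin' : ∀ E, Cyl r E → E ⊂ C → ¬ HasP (fun x y => ¬ r x y) E := fun E hE hEC h =>
            hmin E hE hEC (hasP_compl hs h)
          have S : Sys (fun x y => ¬ r x y) (Cyl r) C := ⟨hs', fun E hE w p => by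
            rw [cut_compl]; exact Cyl.cut E w _ hE, hC,
            fun E hE => mid_compl (hE.mid hm), fun E hE hEC =>
              AB _ hs' E (mid_compl (hE.mid hm)) (hmin' E hE hEC)⟩
          obtain ⟨a, ha, b, hb, c, hc, d, hd, h1, h2, h3, h4, h5, h6, h7, h8, h9, h10, h11⟩ :=
            core_good S hmin' (hasP_compl' hs hP)
              (fun x hx => ⟨x0, hx0, not_not.2 (hs _ _ (hfull x hx))⟩)
          rw [not_not] at h4 h5 h6 h7 h10
          refine ⟨b, d, a, c, h6, hs _ _ h5, h4, fun h => h1 (hs _ _ h), h2,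
            fun h => h3 (hs _ _ h), h8, h10, h7, h9, fun w hw hbad => ?_⟩
          refine h11 w (hC.mem hb hd ha hc hw) ?_
          unfold Bad at hbad ⊢
          rw [not_not, not_not, not_not, not_not]
          tauto
      · push Not at hmin
        obtain ⟨E, hE, hEC, hEP⟩ := hmin
        exact ih E hEC hE hEP
  exact main _ Cyl.univ hp

/-- P3' in the common form: a symmetric 0/1 matrix over ZMod 2 -/
theorem exists_good_matrix {V : Type*} [Finite V] (M : V → V → ZMod 2)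
    (hsymm : ∀ x y, M x y = M y x)
    (pairs : ∀ u v, M u u = M v v → M u v ≠ M u u → ∃ g, M g g ≠ M u u ∧ M g u = M g g ∧
      M g v = M g g ∧ ∀ x, M u x = M v x → M g x = M u x)
    (hp : ∃ a b c d, M a b = 1 ∧ M b c = 1 ∧ M c d = 1 ∧ M a c = 0 ∧ M a d = 0 ∧ M b d = 0) :
    ∃ a b c d, M a b = 1 ∧ M b c = 1 ∧ M c d = 1 ∧ M a c = 0 ∧ M a d = 0 ∧ M b d = 0 ∧
      M a a = 0 ∧ M b b = 1 ∧ M c c = 1 ∧ M d d = 0 ∧
      ∀ w, (∀ y, M a y = M b y → M b y = M c y → M c y = M d y → M w y = M a y) →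
        ¬ ((M w a = 1 ∧ M w b = 1 ∧ M w c = 0 ∧ M w d = 0) ∨
          (M w a = 0 ∧ M w b = 0 ∧ M w c = 1 ∧ M w d = 1) ∨
          (M w a = 1 ∧ M w b = 0 ∧ M w c = 1 ∧ M w d = 0) ∨
          (M w a = 0 ∧ M w b = 1 ∧ M w c = 0 ∧ M w d = 1)) := by
  have h01 : ∀ z : ZMod 2, z = 0 ∨ z = 1 := by decide
  have h0 : ∀ z : ZMod 2, ¬ z = 1 ↔ z = 0 := by decide
  have hiff : ∀ z w : ZMod 2, (z = 1 ↔ w = 1) ↔ z = w := by decide
  have hm : Mid (fun x y => M x y = 1) Set.univ := by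
    intro u _ v _ huv hne
    rw [hiff] at huv hne
    obtain ⟨g, h1, h2, h3, h4⟩ := pairs u v huv hne
    refine ⟨g, trivial, fun h => h1 ((hiff _ _).1 h), (hiff _ _).2 h2, (hiff _ _).2 h3,
      fun y hy => (hiff _ _).2 (h4 y ((hiff _ _).1 hy))⟩
  have hP : HasP (fun x y => M x y = 1) Set.univ := by
    obtain ⟨a, b, c, d, h1, h2, h3, h4, h5, h6⟩ := hp
    exact ⟨a, trivial, b, trivial, c, trivial, d, trivial, h1, h2, h3, (h0 _).2 h4, (h0 _).2 h5,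
      (h0 _).2 h6⟩
  obtain ⟨a, b, c, d, h1, h2, h3, h4, h5, h6, h7, h8, h9, h10, h11⟩ :=
    exists_good (fun x y => M x y = 1) (fun x y h => (hsymm y x).trans h) hm hP
  simp only [h0] at h4 h5 h6 h7 h10
  refine ⟨a, b, c, d, h1, h2, h3, h4, h5, h6, h7, h8, h9, h10, fun w hw hbad => ?_⟩
  refine h11 w (fun y e1 e2 e3 => (hiff _ _).2
    (hw y ((hiff _ _).1 e1) ((hiff _ _).1 e2) ((hiff _ _).1 e3))) ?_
  unfold Bad
  simp only [h0]
  exact hbad

end Pool.Agent.H19.P4
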